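import Pool.Agent.Helper56.TH.Rec2

/-!
# A separated sequence from thin-HT (MP_6f1bc5_lc, block T6)
-/

set_option linter.unusedSectionVars false

universe u

namespace Pool.Agent.Helper56.TH

open Classical

variable {M : Type u} [CommSemiring M] [LinearOrder M] [IsStrictOrderedRing M]
  [CanonicallyOrderedAdd M] {S : Set (Set M)}

/-- increasing enumeration of the positive elements of an unbounded set -/
theorem h40_enum (h : Base S) {X : Set M} (hX : X ∈ S) (hinf : ∀ b, ∃ x ∈ X, b < x) :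
    ∃ y : M → M, Fn S y ∧ (∀ j, y j ∈ X) ∧ (∀ j, 0 < y j) ∧ (∀ j, y j < y (j + 1)) ∧
      ∀ j, j ≤ y j := by
  have hX' : Dec S (fun x => x ∈ X) := by
    unfold Dec
    rwa [Set.setOf_mem_eq]
  have hP : Dec₂ S (fun w v => w ∈ X ∧ v < w) :=
    h.and (h.comp hX' h.fn_p1) (h.lt h.fn_p2 h.fn_p1)
  let nx : M → M := fun v => lst (fun w => w ∈ X ∧ v < w)
  have hnx : Fn S nx := h.fn_lst hP hinf
  have hsp : ∀ v, nx v ∈ X ∧ v < nx v := fun v => (h.lst_spec (h.dec_left hP v) (hinf v)).1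
  obtain ⟨y, hy, hy0, hys⟩ := h.exists_rec₁ (nx 0) (g := fun _ v => nx v)
    (h.fn_comp hnx h.fn_p2)
  have hlt : ∀ j, y j < y (j + 1) := fun j => by rw [hys]; exact (hsp _).2
  refine ⟨y, hy, ?_, ?_, hlt, ?_⟩
  · intro j
    rcases eq_or_ne j 0 with rfl | hj
    · rw [hy0]; exact (hsp _).1
    · obtain ⟨k, rfl⟩ := h.exists_pred (pos_iff_ne_zero.2 hj)
      rw [hys]; exact (hsp _).1
  · intro j
    rcases eq_or_ne j 0 with rfl | hj
    · rw [hy0]; exact (hsp _).2
    · obtain ⟨k, rfl⟩ := h.exists_pred (pos_iff_ne_zero.2 hj)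
      exact lt_of_le_of_lt zero_le (hlt k)
  · intro j
    refine h.ind (P := fun j => j ≤ y j) (h.le h.fn_id hy) zero_le ?_ j
    intro x hx
    exact h.add_one_le_iff.2 (lt_of_le_of_lt hx (hlt x))

theorem h40_div (h : Base S) {q : M} (hq : 0 < q) (v : M) :
    ∃ r < q, ∃ d ≤ v, v = q * d + r := by
  refine h.ind (P := fun v => ∃ r < q, ∃ d ≤ v, v = q * d + r) ?_ ?_ ?_ v
  · refine h.bex (h.fn_const q) (P := fun r v => ∃ d ≤ v, v = q * d + r) ?_
    refine h.bex_le (t := fun c : M => p2 c) h.fn_p2 (P := fun d c => p2 c = q * d + p1 c) ?_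
    exact h.eq (h.fn_p2_comp h.fn_p2)
      (h.fn_add (h.fn_mul (h.fn_const q) h.fn_p1) (h.fn_p1_comp h.fn_p2))
  · exact ⟨0, hq, 0, le_rfl, by simp⟩
  · rintro x ⟨r, hr, d, hd, he⟩
    rcases (h.add_one_le_iff.2 hr).lt_or_eq with h1 | h1
    · exact ⟨r + 1, h1, d, hd.trans le_self_add, by rw [← add_assoc, ← he]⟩
    · refine ⟨0, hq, d + 1, add_le_add_left hd 1, ?_⟩
      rw [he, mul_add, mul_one, add_zero, add_assoc, h1]

/-- a block of consecutive terms whose sum is divisible by `q` -/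
theorem h40_block (h : Base S) {G : M → M} (hG : Fn S G) (hGlt : ∀ j, G j < G (j + 1))
    {q : M} (hq : 0 < q) (a : M) :
    ∃ a' b', a ≤ a' ∧ a' < b' ∧ ∃ c, G b' = G a' + q * c := by
  have hP : Dec₂ S (fun r m => r < q ∧ ∃ d ≤ G (a + m), G (a + m) = q * d + r) := by
    refine h.and (h.lt h.fn_p1 (h.fn_const q)) ?_
    have hGa : Fn S (fun c : M => G (a + p2 c)) :=
      h.fn_comp hG (h.fn_add (h.fn_const a) h.fn_p2)
    refine h.bex_le hGa (P := fun d c => G (a + p2 c) = q * d + p1 c) ?_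
    exact h.eq (h.fn_comp hG (h.fn_add (h.fn_const a) (h.fn_p2_comp h.fn_p2)))
      (h.fn_add (h.fn_mul (h.fn_const q) h.fn_p1) (h.fn_p1_comp h.fn_p2))
  have hex : ∀ m, ∃ r, r < q ∧ ∃ d ≤ G (a + m), G (a + m) = q * d + r := fun m => by
    obtain ⟨r, hr, d, hd, he⟩ := h40_div h hq (G (a + m))
    exact ⟨r, hr, d, hd, he⟩
  have hsp := fun m => (h.lst_spec (h.dec_left hP m) (hex m)).1
  obtain ⟨i, j, hij, -, he⟩ := h.php (h.fn_lst hP hex) q (fun j _ => (hsp j).1)
  obtain ⟨-, d, -, hd⟩ := hsp i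
  obtain ⟨-, d', -, hd'⟩ := hsp j
  rw [← he] at hd'
  have hlt : a + i < a + j := add_lt_add_right hij a
  have hGl : G (a + i) < G (a + j) := h.strictMono_of_succ hG hGlt hlt
  refine ⟨a + i, a + j, le_self_add, hlt, ?_⟩
  have hdd : d ≤ d' := by
    by_contra hc
    rw [not_le] at hc
    have h1 : q * d' ≤ q * d := mul_le_mul_right hc.le q
    have h2 : G (a + j) ≤ G (a + i) := by
      rw [hd, hd']
      exact add_le_add_left h1 _
    exact absurd hGl (not_lt.2 h2)
  obtain ⟨e, rfl⟩ := exists_add_of_le hdd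
  refine ⟨e, ?_⟩
  rw [hd, hd']
  ring

theorem exists_apart (h : Base S) (hT : ThinF S) {p : M → M} (hp : IsPow S p) {c : M → M}
    (hc : Fn S c) : ∃ (x : M → M) (i : M), Fn S x ∧ (∀ j, 0 < x j) ∧
      (∀ j, ∃ k, x j < p k ∧ p k ∣ x (j + 1)) ∧
      ∀ χ : M → M, Fn S χ → (∀ j, χ j = 0 ∨ χ j = 1) → ∀ F : M → M, Fn S F → F 0 = 0 →
        (∀ j, F (j + 1) = F j + χ j * x j) → ∀ N, (∃ j < N, χ j = 1) → c (F N) ≠ i := by
  obtain ⟨X, hX, hinf, i, hi⟩ := hT c hc
  obtain ⟨y, hy, hyX, hy0, hylt, hyle⟩ := h40_enum h hX hinf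
  have hymono : ∀ {a b : M}, a < b → y a < y b := fun hab => h.strictMono_of_succ hy hylt hab
  obtain ⟨G, hG, hG0, hGs⟩ := h.exists_rec₁ 0 (g := fun n v => v + y n)
    (h.fn_add h.fn_p2 (h.fn_comp hy h.fn_p1))
  have hGlt : ∀ j, G j < G (j + 1) := fun j => by
    rw [hGs]; exact lt_add_of_pos_right _ (hy0 j)
  -- the next block
  have hP : Dec₂ S (fun n s => p2 s ≤ p1 n ∧ p1 n < p2 n ∧
      ∃ d ≤ G (p2 n), G (p2 n) = G (p1 n) + p (G (p2 s)) * d) := by
    refine h.and (h.le (h.fn_p2_comp h.fn_p2) (h.fn_p1_comp h.fn_p1)) (h.and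
      (h.lt (h.fn_p1_comp h.fn_p1) (h.fn_p2_comp h.fn_p1)) ?_)
    refine h.bex_le (t := fun q : M => G (p2 (p1 q))) (h.fn_comp hG (h.fn_p2_comp h.fn_p1))
      (P := fun d q => G (p2 (p1 q)) = G (p1 (p1 q)) + p (G (p2 (p2 q))) * d) ?_
    refine h.eq (h.fn_comp hG (h.fn_p2_comp (h.fn_p1_comp h.fn_p2))) (h.fn_add
      (h.fn_comp hG (h.fn_p1_comp (h.fn_p1_comp h.fn_p2))) (h.fn_mul ?_ h.fn_p1))
    exact h.fn_comp hp.fn (h.fn_comp hG (h.fn_p2_comp (h.fn_p2_comp h.fn_p2)))
  have hex : ∀ s : M, ∃ n, p2 s ≤ p1 n ∧ p1 n < p2 n ∧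
      ∃ d ≤ G (p2 n), G (p2 n) = G (p1 n) + p (G (p2 s)) * d := by
    intro s
    obtain ⟨a', b', h1, h2, d, hd⟩ := h40_block h hG hGlt (hp.pos h (G (p2 s))) (p2 s)
    refine ⟨pr a' b', ?_⟩
    rw [h.p1_pr, h.p2_pr]
    refine ⟨h1, h2, d, ?_, hd⟩
    rw [hd]
    calc d = 1 * d := (one_mul d).symm
      _ ≤ p (G (p2 s)) * d :=
        mul_le_mul (h.pos_iff.1 (hp.pos h (G (p2 s)))) le_rfl zero_le zero_le
      _ ≤ _ := le_add_self
  let nx : M → M := fun s => lst (fun n => p2 s ≤ p1 n ∧ p1 n < p2 n ∧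
      ∃ d ≤ G (p2 n), G (p2 n) = G (p1 n) + p (G (p2 s)) * d)
  have hnx : Fn S nx := h.fn_lst hP hex
  have hsp : ∀ s, p2 s ≤ p1 (nx s) ∧ p1 (nx s) < p2 (nx s) ∧
      ∃ d ≤ G (p2 (nx s)), G (p2 (nx s)) = G (p1 (nx s)) + p (G (p2 s)) * d :=
    fun s => (h.lst_spec (h.dec_left hP s) (hex s)).1
  obtain ⟨st, hst, hst0, hsts⟩ := h.exists_rec₁ (pr 0 1) (g := fun _ s => nx s)
    (h.fn_comp hnx h.fn_p2)
  let A : M → M := fun j => p1 (st j)
  let B : M → M := fun j => p2 (st j)
  have hA : Fn S A := h.fn_p1_comp hst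
  have hB : Fn S B := h.fn_p2_comp hst
  have hA0 : A 0 = 0 := by
    change p1 (st 0) = 0
    rw [hst0, h.p1_pr]
  have hAB : ∀ j, A j < B j := by
    intro j
    rcases eq_or_ne j 0 with rfl | hj
    · change p1 (st 0) < p2 (st 0)
      rw [hst0, h.p1_pr, h.p2_pr]
      exact one_pos
    · obtain ⟨k, rfl⟩ := h.exists_pred (pos_iff_ne_zero.2 hj)
      change p1 (st (k + 1)) < p2 (st (k + 1))
      rw [hsts]
      exact (hsp _).2.1
  have hBA : ∀ j, B j ≤ A (j + 1) := by
    intro j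
    change p2 (st j) ≤ p1 (st (j + 1))
    rw [hsts]
    exact (hsp _).1
  have hBG : ∀ j, ∃ d, G (B (j + 1)) = G (A (j + 1)) + p (G (B j)) * d := by
    intro j
    change ∃ d, G (p2 (st (j + 1))) = G (p1 (st (j + 1))) + p (G (p2 (st j))) * d
    rw [hsts]
    obtain ⟨d, -, hd⟩ := (hsp (st j)).2.2
    exact ⟨d, hd⟩
  have hAmono : ∀ {a b : M}, a ≤ b → A a ≤ A b := fun hab =>
    h.mono_of_succ hA (fun n => (hAB n).le.trans (hBA n)) hab
  have hBAlt : ∀ {a b : M}, a < b → B a ≤ A b := fun hab =>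
    (hBA _).trans (hAmono (h.add_one_le_iff.2 hab))
  -- the sums of the blocks
  have hQ : Dec₂ S (fun z j => G (A j) + z = G (B j)) :=
    h.eq (h.fn_add (h.fn_comp hG (h.fn_comp hA h.fn_p2)) h.fn_p1)
      (h.fn_comp hG (h.fn_comp hB h.fn_p2))
  have hexQ : ∀ j, ∃ z, G (A j) + z = G (B j) := fun j => by
    obtain ⟨z, hz⟩ := exists_add_of_le (h.strictMono_of_succ hG hGlt (hAB j)).le
    exact ⟨z, hz.symm⟩
  let x : M → M := fun j => lst (fun z => G (A j) + z = G (B j))
  have hx : Fn S x := h.fn_lst hQ hexQ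
  have hxsp : ∀ j, G (A j) + x j = G (B j) :=
    fun j => (h.lst_spec (h.dec_left hQ j) (hexQ j)).1
  refine ⟨x, i, hx, ?_, ?_, ?_⟩
  · intro j
    rw [pos_iff_ne_zero]
    intro h0
    have h1 := hxsp j
    rw [h0, add_zero] at h1
    exact absurd h1 (h.strictMono_of_succ hG hGlt (hAB j)).ne
  · intro j
    refine ⟨G (B j), ?_, ?_⟩
    · refine lt_of_le_of_lt ?_ (?_ : G (B j) < p (G (B j)))
      · rw [← hxsp j]; exact le_add_self
      · -- n < p n
        refine h.ind (P := fun n => n < p n) (h.lt h.fn_id hp.fn) ?_ ?_ (G (B j))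
        · rw [hp.zero]; exact one_pos
        · intro n hn
          rw [hp.succ, two_mul]
          exact lt_of_le_of_lt (h.add_one_le_iff.2 hn) (lt_add_of_pos_right _ (hp.pos h n))
    · obtain ⟨d, hd⟩ := hBG j
      refine ⟨d, ?_⟩
      rw [← hxsp (j + 1)] at hd
      exact add_left_cancel hd
  · intro χ hχ hχ01 F hF hF0 hFs N hN
    -- the set of indices
    let E : M → Prop := fun m => ∃ j < N, χ j = 1 ∧ A j ≤ m ∧ m < B j
    have hE : Dec S E := by
      refine h.bex (h.fn_const N) (P := fun j m => χ j = 1 ∧ A j ≤ m ∧ m < B j) ?_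
      exact h.and (h.eq (h.fn_comp hχ h.fn_p1) (h.fn_const 1))
        (h.and (h.le (h.fn_comp hA h.fn_p1) h.fn_p2) (h.lt h.fn_p2 (h.fn_comp hB h.fn_p1)))
    let f : M → M := fun m => if E m then y m else 0
    have hf : Fn S f := h.fn_ite hE hy (h.fn_const 0)
    obtain ⟨H, hH, hH0, hHs⟩ := h.exists_rec₁ 0 (g := fun n v => v + f n)
      (h.fn_add h.fn_p2 (h.fn_comp hf h.fn_p1))
    -- values of `f`
    have hf1 : ∀ j < N, ∀ m, A j ≤ m → m < B j → f m = χ j * y m := by
      intro j hj m h1 h2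
      rcases hχ01 j with h0 | h0
      · have : ¬ E m := by
          rintro ⟨k, hk, hk1, hk2, hk3⟩
          rcases lt_trichotomy k j with h3 | h3 | h3
          · exact absurd (lt_of_lt_of_le hk3 ((hBAlt h3).trans h1)) (lt_irrefl _)
          · rw [h3, h0] at hk1
            exact zero_ne_one hk1
          · exact absurd (lt_of_lt_of_le h2 ((hBAlt h3).trans hk2)) (lt_irrefl _)
        simp only [f, this, if_false, h0, zero_mul]
      · have : E m := ⟨j, hj, h0, h1, h2⟩
        simp only [f, this, if_true, h0, one_mul]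
    have hf2 : ∀ j, ∀ m, B j ≤ m → m < A (j + 1) → f m = 0 := by
      intro j m h1 h2
      have : ¬ E m := by
        rintro ⟨k, hk, hk1, hk2, hk3⟩
        rcases lt_or_ge k (j + 1) with h3 | h3
        · rcases (h.lt_add_one_iff.1 h3).lt_or_eq with h4 | h4
          · have := (hBAlt h4).trans (hAB j).le
            exact absurd (lt_of_lt_of_le hk3 (this.trans h1)) (lt_irrefl _)
          · rw [h4] at hk3
            exact absurd (lt_of_lt_of_le hk3 h1) (lt_irrefl _)
        · exact absurd (lt_of_lt_of_le h2 ((hAmono h3).trans hk2)) (lt_irrefl _)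
      simp only [f, this, if_false]
    -- inside a block
    have hin : ∀ j < N, H (B j) = H (A j) + χ j * x j := by
      intro j hj
      have key : ∀ d, A j + d ≤ B j → H (A j + d) + χ j * G (A j) =
          H (A j) + χ j * G (A j + d) := by
        intro d
        refine h.ind (P := fun d => A j + d ≤ B j → H (A j + d) + χ j * G (A j) =
          H (A j) + χ j * G (A j + d)) ?_ ?_ ?_ d
        · refine h.imp (h.le (h.fn_add (h.fn_const _) h.fn_id) (h.fn_const _)) (h.eq
            (h.fn_add (h.fn_comp hH (h.fn_add (h.fn_const _) h.fn_id)) (h.fn_const _)) ?_)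
          exact h.fn_add (h.fn_const _) (h.fn_mul (h.fn_const _)
            (h.fn_comp hG (h.fn_add (h.fn_const _) h.fn_id)))
        · intro _
          rw [add_zero]
        · intro d ih hd
          have hd' : A j + d < B j := by
            rw [← add_assoc] at hd
            exact h.add_one_le_iff.1 hd
          have h1 := ih hd'.le
          rw [← add_assoc, hHs, hGs, hf1 j hj _ le_self_add hd', mul_add, ← add_assoc, ← h1]
          ring
      obtain ⟨d, hd⟩ := exists_add_of_le (hAB j).le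
      have h2 := key d hd.ge
      rw [← hd, ← hxsp j, mul_add] at h2
      have h3 : χ j * G (A j) + H (B j) = χ j * G (A j) + (H (A j) + χ j * x j) := by
        rw [add_comm, h2]
        ring
      exact add_left_cancel h3
    -- between the blocks
    have hout : ∀ j, H (A (j + 1)) = H (B j) := by
      intro j
      obtain ⟨d, hd⟩ := exists_add_of_le (hBA j)
      rw [hd]
      have key : ∀ d, B j + d ≤ A (j + 1) → H (B j + d) = H (B j) := by
        intro d
        refine h.ind (P := fun d => B j + d ≤ A (j + 1) → H (B j + d) = H (B j)) ?_ ?_ ?_ d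
        · exact h.imp (h.le (h.fn_add (h.fn_const _) h.fn_id) (h.fn_const _)) (h.eq
            (h.fn_comp hH (h.fn_add (h.fn_const _) h.fn_id)) (h.fn_const _))
        · intro _
          rw [add_zero]
        · intro d ih hd
          have hd' : B j + d < A (j + 1) := by
            rw [← add_assoc] at hd
            exact h.add_one_le_iff.1 hd
          rw [← add_assoc, hHs, ih hd'.le, hf2 j _ le_self_add hd', add_zero]
      exact key d hd.ge
    have hHA : ∀ j, j ≤ N → H (A j) = F j := by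
      intro j hj
      refine h.ind_le (P := fun j => H (A j) = F j) (n := N) ?_ ?_ ?_ hj
      · exact h.eq (h.fn_comp hH hA) hF
      · rw [hA0, hH0, hF0]
      · intro k hk ih
        rw [hout, hin k hk, ih, hFs]
    -- the counting function
    have hC : Dec₂ S (fun m n => n ≤ y m) := h.le h.fn_p2 (h.fn_comp hy h.fn_p1)
    have hCex : ∀ n, ∃ m, n ≤ y m := fun n => ⟨n, hyle n⟩
    let cnt : M → M := fun n => lst (fun m => n ≤ y m)
    have hcnt : Fn S cnt := h.fn_lst hC hCex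
    have hcnt0 : cnt 0 = 0 := Base.lst_eq zero_le (fun z hz => absurd hz (not_lt.2 zero_le))
    have hcnty : ∀ m, cnt (y m) = m := fun m =>
      Base.lst_eq le_rfl (fun z hz => not_le.2 (hymono hz))
    have hcnty1 : ∀ m, cnt (y m + 1) = m + 1 := fun m =>
      Base.lst_eq (h.add_one_le_iff.2 (hylt m)) (fun z hz => by
        rw [not_le, h.lt_add_one_iff]
        rcases (h.lt_add_one_iff.1 hz).lt_or_eq with h1 | h1
        · exact (hymono h1).le
        · rw [h1])
    have hcntn : ∀ n, (∀ m, y m ≠ n) → cnt (n + 1) = cnt n := by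
      intro n hn
      obtain ⟨h1, h2⟩ := h.lst_spec (h.dec_left hC n) (hCex n)
      refine Base.lst_eq (h.add_one_le_iff.2 (lt_of_le_of_ne h1 (hn _).symm)) ?_
      intro z hz hz'
      exact h2 z hz (le_self_add.trans hz')
    refine hi {v | ∃ m ≤ v, y m = v ∧ E m} ?_ ?_ ?_ (F N) ?_
    · refine h.bex_le (P := fun m v => y m = v ∧ E m) h.fn_id ?_
      exact h.and (h.eq (h.fn_comp hy h.fn_p1) h.fn_p2) (h.comp hE h.fn_p1)
    · rintro v ⟨m, -, rfl, -⟩
      exact hyX m
    · obtain ⟨j, hj, hj1⟩ := hN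
      exact ⟨y (A j), A j, hyle _, rfl, j, hj, hj1, le_rfl, hAB j⟩
    · refine ⟨fun n => H (cnt n), h.fn_comp hH hcnt, ?_, ?_, ?_, y (A N), ?_, ?_⟩
      · change H (cnt 0) = 0
        rw [hcnt0, hH0]
      · rintro n ⟨m, -, rfl, hm⟩
        change H (cnt (y m + 1)) = H (cnt (y m)) + y m
        rw [hcnty1, hcnty, hHs]
        simp only [f, hm, if_true]
      · intro n hn
        change H (cnt (n + 1)) = H (cnt n)
        by_cases hc : ∃ m, y m = n
        · obtain ⟨m, rfl⟩ := hc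
          have hm : ¬ E m := fun hm => hn ⟨m, hyle m, rfl, hm⟩
          rw [hcnty1, hcnty, hHs]
          simp only [f, hm, if_false, add_zero]
        · push Not at hc
          rw [hcntn n hc]
      · rintro n ⟨m, -, rfl, j, hj, -, -, hm⟩
        exact hymono (lt_of_lt_of_le hm (hBAlt hj))
      · change H (cnt (y (A N))) = F N
        rw [hcnty, hHA N le_rfl]

end Pool.Agent.Helper56.TH
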