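import Pool.Agent.Helper56.TH.Iface

/-!
# The 2-adic valuation colour function (MP_6f1bc5_lc, block T5a)
-/

set_option linter.unusedSectionVars false

universe u

namespace Pool.Agent.Helper56.TH

open Classical

variable {M : Type u} [CommSemiring M] [LinearOrder M] [IsStrictOrderedRing M]
  [CanonicallyOrderedAdd M] {S : Set (Set M)}

theorem h40_pow_pos (h : Base S) {p : M → M} (hp : IsPow S p) (n : M) : 0 < p n := by
  refine h.ind (P := fun n => 0 < p n) (h.lt (h.fn_const 0) hp.fn) ?_ ?_ n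
  · rw [hp.zero]; exact one_pos
  · intro x hx
    rw [hp.succ]
    exact mul_pos two_pos hx

theorem h40_lt_pow (h : Base S) {p : M → M} (hp : IsPow S p) (n : M) : n < p n := by
  refine h.ind (P := fun n => n < p n) (h.lt h.fn_id hp.fn) ?_ ?_ n
  · rw [hp.zero]; exact one_pos
  · intro x hx
    rw [hp.succ]
    have h1 : x + 1 ≤ p x := h.add_one_le_iff.2 hx
    have h2 := h40_pow_pos h hp x
    calc x + 1 ≤ p x := h1
      _ < p x + p x := lt_add_of_pos_right _ h2
      _ = 2 * p x := (two_mul _).symm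

theorem h40_pow_add (h : Base S) {p : M → M} (hp : IsPow S p) (a b : M) :
    p (a + b) = p a * p b := by
  refine h.ind (P := fun b => p (a + b) = p a * p b) ?_ ?_ ?_ b
  · exact h.eq (h.fn_comp hp.fn (h.fn_add (h.fn_const a) h.fn_id))
      (h.fn_mul (h.fn_const _) hp.fn)
  · rw [add_zero, hp.zero, mul_one]
  · intro x hx
    rw [← add_assoc, hp.succ, hp.succ, hx]
    ring

/-- parity -/
theorem h40_parity (h : Base S) {r s : M} (he : 2 * r + 1 = 2 * s) : False := by
  rcases lt_or_ge r s with h1 | h1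
  · have h2 : r + 1 ≤ s := h.add_one_le_iff.2 h1
    have h3 : 2 * (r + 1) ≤ 2 * s := mul_le_mul_right h2 2
    rw [← he] at h3
    have h4 : (2 * r + 1) + 1 ≤ 2 * r + 1 := by
      calc (2 * r + 1) + 1 = 2 * (r + 1) := by ring
        _ ≤ 2 * r + 1 := h3
    exact absurd (h.add_one_le_iff.1 h4) (lt_irrefl _)
  · have h3 : 2 * s ≤ 2 * r := mul_le_mul_right h1 2
    rw [← he] at h3
    exact absurd (h.add_one_le_iff.1 h3) (lt_irrefl _)

/-- uniqueness of quotients -/
theorem h40_div_unique (h : Base S) {q a b e f : M} (he : e < q) (hf : f < q)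
    (hab : q * a + e = q * b + f) : a = b := by
  rcases lt_trichotomy a b with h1 | h1 | h1
  · exfalso
    have h2 : a + 1 ≤ b := h.add_one_le_iff.2 h1
    have h3 : q * (a + 1) ≤ q * b := mul_le_mul_right h2 q
    have h4 : q * a + e < q * (a + 1) := by
      rw [mul_add, mul_one]
      exact add_lt_add_right he _
    have h5 : q * a + e < q * b + f := lt_of_lt_of_le (h4.trans_le h3) le_self_add
    exact absurd hab h5.ne
  · exact h1
  · exfalso
    have h2 : b + 1 ≤ a := h.add_one_le_iff.2 h1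
    have h3 : q * (b + 1) ≤ q * a := mul_le_mul_right h2 q
    have h4 : q * b + f < q * (b + 1) := by
      rw [mul_add, mul_one]
      exact add_lt_add_right hf _
    have h5 : q * b + f < q * a + e := lt_of_lt_of_le (h4.trans_le h3) le_self_add
    exact absurd hab h5.ne'

theorem h40_mul_cancel {q a b : M} (hq : 0 < q) (hab : q * a = q * b) : a = b := by
  rcases lt_trichotomy a b with h1 | h1 | h1
  · exact absurd hab (mul_lt_mul_of_pos_left h1 hq).ne
  · exact h1
  · exact absurd hab (mul_lt_mul_of_pos_left h1 hq).ne'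

theorem h40_pow_odd_lt (h : Base S) {p : M → M} (hp : IsPow S p) {i j r s : M} (hij : i < j)
    (he : p i * (2 * r + 1) = p j * (2 * s + 1)) : False := by
  obtain ⟨d, hd⟩ := exists_add_of_le (h.add_one_le_iff.2 hij)
  rw [hd, show i + 1 + d = i + (d + 1) by ring, h40_pow_add h hp, hp.succ, mul_assoc] at he
  have h1 := h40_mul_cancel (h40_pow_pos h hp i) he
  rw [mul_assoc] at h1
  exact h40_parity h h1

theorem exists_col (h : Base S) {p : M → M} (hp : IsPow S p) (t : M) :
    ∃ col : M → M, Fn S col ∧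
      ∀ i r e, e < p t → col (p t * (p i * (2 * r + 1)) + e) = i := by
  have hP : Dec₂ S (fun i v : M => ∃ r ≤ v, ∃ e ≤ v,
      e < p t ∧ v = p t * (p i * (2 * r + 1)) + e) := by
    refine h.bex_le (t := fun q : M => p2 q)
      (P := fun r q => ∃ e ≤ p2 q, e < p t ∧ p2 q = p t * (p (p1 q) * (2 * r + 1)) + e)
      h.fn_p2 ?_
    refine h.bex_le (t := fun q : M => p2 (p2 q))
      (P := fun e q => e < p t ∧ p2 (p2 q) = p t * (p (p1 (p2 q)) * (2 * (p1 q) + 1)) + e)
      (h.fn_p2_comp h.fn_p2) ?_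
    refine h.and (h.lt h.fn_p1 (h.fn_const _)) (h.eq (h.fn_p2_comp (h.fn_p2_comp h.fn_p2)) ?_)
    refine h.fn_add (h.fn_mul (h.fn_const _) (h.fn_mul ?_ ?_)) h.fn_p1
    · exact h.fn_comp hp.fn (h.fn_p1_comp (h.fn_p2_comp h.fn_p2))
    · exact h.fn_add (h.fn_mul (h.fn_const 2) (h.fn_p1_comp h.fn_p2)) (h.fn_const 1)
  refine ⟨_, h.fn_lst_le h.fn_id hP, ?_⟩
  intro i r e he
  have hpi := h40_pow_pos h hp i
  have hpt := h40_pow_pos h hp t
  have h1 : ∀ a b : M, 0 < a → b ≤ a * b := by
    intro a b ha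
    calc b = 1 * b := (one_mul b).symm
      _ ≤ a * b := mul_le_mul (h.pos_iff.1 ha) le_rfl zero_le zero_le
  have hr : 2 * r + 1 ≤ p t * (p i * (2 * r + 1)) + e :=
    ((h1 _ _ hpi).trans (h1 _ _ hpt)).trans le_self_add
  have hi : i ≤ p t * (p i * (2 * r + 1)) + e := by
    refine (h40_lt_pow h hp i).le.trans ?_
    refine le_trans ?_ (le_trans (h1 _ (p i * (2 * r + 1)) hpt) le_self_add)
    calc p i = p i * 1 := (mul_one _).symm
      _ ≤ p i * (2 * r + 1) := mul_le_mul le_rfl le_add_self zero_le zero_le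
  have hr' : r ≤ 2 * r + 1 := by
    calc r ≤ r + (r + 1) := le_self_add
      _ = 2 * r + 1 := by ring
  refine Base.lst_eq ⟨hi, r, hr'.trans hr, e, le_add_self, he, rfl⟩ ?_
  rintro z hz ⟨-, r', -, e', -, he', heq⟩
  have := h40_div_unique h he he' heq
  exact h40_pow_odd_lt h hp hz this.symm

end Pool.Agent.Helper56.TH
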